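import Pool.Agent.helper8.T6.SpecC1

/-!
# Row t6:TLQ (MP_16912e_nt): the number of solutions of a quadratic congruence
-/

set_option autoImplicit false

namespace Pool.Agent.T6

open Finset Pool.Agent.T5

theorem TLQ_dvd {p : ℤ} (hp : Prime p) (J : ℕ) : ∀ (a : ℕ) (u v : ℤ), p ^ a ∣ u * v → ¬ p ^ J ∣ u →
    p ^ (a + 1 - J) ∣ v := by
  induction J with
  | zero =>
    intro a u v _ h
    exact absurd (one_dvd u) (by rwa [pow_zero] at h)
  | succ J ih =>
    intro a u v h1 h2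
    by_cases h3 : p ∣ u
    · obtain ⟨u', rfl⟩ := h3
      rcases a with _ | a
      · have e : 0 + 1 - (J + 1) = 0 := by omega
        rw [e, pow_zero]
        exact one_dvd v
      · have h4 : p ^ a ∣ u' * v := by
          rw [pow_succ', mul_assoc] at h1
          exact (mul_dvd_mul_iff_left hp.ne_zero).1 h1
        have h5 : ¬ p ^ J ∣ u' := by
          intro h
          apply h2
          rw [pow_succ']
          exact mul_dvd_mul_left p h
        have h6 := ih a u' v h4 h5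
        have e : a + 1 + 1 - (J + 1) = a + 1 - J := by omega
        rw [e]
        exact h6
    · have h4 := hp.pow_dvd_of_dvd_mul_left a h3 h1
      exact (pow_dvd_pow p (by omega)).trans h4

theorem TLQ_class (p a J : ℕ) (hJ : J ≤ a) (z : ℤ) :
    ((range (p ^ a)).filter (fun x : ℕ => (p : ℤ) ^ J ∣ (x : ℤ) - z)).card ≤ p ^ (a - J) := by
  have h1 : ((range (p ^ a)).filter (fun x : ℕ => (p : ℤ) ^ J ∣ (x : ℤ) - z)).card ≤ (range (p ^ (a - J))).card := by
    apply Finset.card_le_card_of_injOn (fun x => x / p ^ J)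
    · intro x hx
      rw [Finset.mem_coe, Finset.mem_filter, Finset.mem_range] at hx
      rw [Finset.mem_coe, Finset.mem_range]
      apply Nat.div_lt_of_lt_mul
      rw [← pow_add]
      have e : J + (a - J) = a := by omega
      rw [e]
      exact hx.1
    · intro x hx y hy hxy
      rw [Finset.mem_coe, Finset.mem_filter] at hx hy
      have h2 : (p : ℤ) ^ J ∣ (x : ℤ) - y := by
        have h3 := dvd_sub hx.2 hy.2
        have e : (x : ℤ) - z - (y - z) = x - y := by ring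
        rwa [e] at h3
      have h3 : x % p ^ J = y % p ^ J := by
        have h4 : ((x : ℤ) % ((p ^ J : ℕ) : ℤ)) = (y : ℤ) % ((p ^ J : ℕ) : ℤ) := by
          exact Int.ModEq.symm ((Int.modEq_iff_dvd).2 (by push_cast; exact h2))
        exact_mod_cast h4
      have h4 : x / p ^ J = y / p ^ J := hxy
      rw [← Nat.div_add_mod x (p ^ J), ← Nat.div_add_mod y (p ^ J), h3, h4]
  rwa [Finset.card_range] at h1

theorem TLQ : TLQ_stmt := by
  intro p a R r b c hp hr
  have hpi : Prime (p : ℤ) := Nat.prime_iff_prime_int.1 hp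
  obtain ⟨j, hja, hj⟩ := (Nat.dvd_prime_pow hp).1 (Nat.gcd_dvd_right R (p ^ a))
  rw [hj]
  by_cases h2j : a ≤ 2 * j
  · refine (Finset.card_filter_le _ _).trans ?_
    rw [Finset.card_range, mul_assoc, ← pow_add]
    have h1 : p ^ a ≤ p ^ (a / 2 + j) := Nat.pow_le_pow_right hp.pos (by omega)
    omega
  · obtain ⟨R₁, hR₁⟩ : p ^ j ∣ R := hj ▸ Nat.gcd_dvd_left R (p ^ a)
    have hR₂ : ¬ (p : ℤ) ∣ (R₁ : ℤ) := by
      intro h
      rw [Int.natCast_dvd_natCast] at h
      obtain ⟨R₂, hR₂⟩ := h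
      have h1 : p ^ (j + 1) ∣ Nat.gcd R (p ^ a) := by
        apply Nat.dvd_gcd
        · rw [hR₁, hR₂]
          exact ⟨R₂, by ring⟩
        · exact pow_dvd_pow p (by omega)
      rw [hj] at h1
      have h2 := (Nat.pow_dvd_pow_iff_le_right hp.one_lt).1 h1
      omega
    set J := (a + 1) / 2 - j with hJ
    set S := (range (p ^ a)).filter (fun g : ℕ => (p : ℤ) ^ a ∣ r * (R : ℤ) ^ 2 * (g : ℤ) ^ 2 + b * g + c) with hS
    have key : ∀ x y : ℕ, x ∈ S → y ∈ S → ¬ (p : ℤ) ^ J ∣ (x : ℤ) - y →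
        (p : ℤ) ^ (a + 1 - J) ∣ r * (R : ℤ) ^ 2 * ((x : ℤ) + y) + b := by
      intro x y hx hy hxy
      rw [hS, Finset.mem_filter] at hx hy
      apply TLQ_dvd hpi J a ((x : ℤ) - y) _ _ hxy
      have h1 := dvd_sub hx.2 hy.2
      have e : r * (R : ℤ) ^ 2 * (x : ℤ) ^ 2 + b * x + c - (r * (R : ℤ) ^ 2 * (y : ℤ) ^ 2 + b * y + c) =
          ((x : ℤ) - y) * (r * (R : ℤ) ^ 2 * ((x : ℤ) + y) + b) := by ring
      rwa [e] at h1
    have key2 : ∀ x y z : ℕ, x ∈ S → y ∈ S → z ∈ S → ¬ (p : ℤ) ^ J ∣ (x : ℤ) - z → ¬ (p : ℤ) ^ J ∣ (y : ℤ) - z →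
        (p : ℤ) ^ J ∣ (x : ℤ) - y := by
      intro x y z hx hy hz hxz hyz
      have h1 := dvd_sub (key x z hx hz hxz) (key y z hy hz hyz)
      have e : r * (R : ℤ) ^ 2 * ((x : ℤ) + z) + b - (r * (R : ℤ) ^ 2 * ((y : ℤ) + z) + b) =
          (p : ℤ) ^ (2 * j) * ((r * (R₁ : ℤ) ^ 2) * ((x : ℤ) - y)) := by
        rw [hR₁]
        push_cast
        ring
      rw [e] at h1
      have e2 : a + 1 - J = 2 * j + (a + 1 - J - 2 * j) := by omega
      rw [e2, pow_add] at h1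
      have h2 := (mul_dvd_mul_iff_left (pow_ne_zero _ hpi.ne_zero)).1 h1
      have h3 : ¬ (p : ℤ) ∣ r * (R₁ : ℤ) ^ 2 := by
        intro h
        rcases hpi.dvd_or_dvd h with h | h
        · exact hr h
        · exact hR₂ (hpi.dvd_of_dvd_pow h)
      have h4 := hpi.pow_dvd_of_dvd_mul_left _ h3 h2
      exact (pow_dvd_pow _ (by omega)).trans h4
    rcases S.eq_empty_or_nonempty with h0 | ⟨x₀, hx₀⟩
    · rw [h0, Finset.card_empty]
      exact Nat.zero_le _
    obtain ⟨y₀, hy₀⟩ : ∃ y₀ : ℕ, ∀ x ∈ S, (p : ℤ) ^ J ∣ (x : ℤ) - x₀ ∨ (p : ℤ) ^ J ∣ (x : ℤ) - y₀ := by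
      by_cases h1 : ∃ y ∈ S, ¬ (p : ℤ) ^ J ∣ (y : ℤ) - x₀
      · obtain ⟨y, hy, hy'⟩ := h1
        refine ⟨y, fun x hx => ?_⟩
        by_cases h2 : (p : ℤ) ^ J ∣ (x : ℤ) - x₀
        · exact Or.inl h2
        · exact Or.inr (key2 x y x₀ hx hy hx₀ h2 hy')
      · push Not at h1
        exact ⟨x₀, fun x hx => Or.inl (h1 x hx)⟩
    have h1 : S ⊆ (range (p ^ a)).filter (fun x : ℕ => (p : ℤ) ^ J ∣ (x : ℤ) - x₀) ∪
        (range (p ^ a)).filter (fun x : ℕ => (p : ℤ) ^ J ∣ (x : ℤ) - y₀) := by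
      intro x hx
      have hx' := hx
      rw [hS, Finset.mem_filter] at hx'
      rw [Finset.mem_union, Finset.mem_filter, Finset.mem_filter]
      rcases hy₀ x hx with h | h
      · exact Or.inl ⟨hx'.1, h⟩
      · exact Or.inr ⟨hx'.1, h⟩
    have hJa : J ≤ a := by omega
    have h2 := (Finset.card_le_card h1).trans (Finset.card_union_le _ _)
    have h3 := TLQ_class p a J hJa x₀
    have h4 := TLQ_class p a J hJa y₀
    have e : a - J = a / 2 + j := by omega
    rw [e, pow_add] at h3 h4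
    calc S.card ≤ p ^ (a / 2) * p ^ j + p ^ (a / 2) * p ^ j := h2.trans (add_le_add h3 h4)
      _ = 2 * p ^ (a / 2) * p ^ j := by ring

end Pool.Agent.T6
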