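import Pool.Agent.helper82.T6.SpecW
import Pool.Agent.helper96.FT.P7

set_option autoImplicit false

/-! T6 (MP_16912e_nt), row WPR: one block of pairs. -/

namespace Pool.Agent.T6

open Finset Pool.Agent.helper3.FT Pool.Agent.T5

theorem WPR_lam (b : ℝ) (hb : 0 < b) (d r : ℕ) : 0 ≤ lamb b d r := by
  apply Real.sInf_nonneg
  rintro x ⟨v, -, -, rfl⟩
  unfold nrm
  exact le_max_of_le_left (le_max_of_le_left (by positivity))

theorem WPR_sq (near x : ℝ) (hx : 0 ≤ x) (h : near ≤ 234256 ∨ near ≤ (1 + 6 * x) ^ 3) :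
    √near ≤ 484 * (1 + x ^ (3 / 2 : ℝ)) := by
  have hx2 : 0 ≤ x ^ (3 / 2 : ℝ) := Real.rpow_nonneg hx _
  rcases h with h | h
  · calc √near ≤ √234256 := Real.sqrt_le_sqrt h
      _ = 484 := by
        rw [show (234256 : ℝ) = 484 ^ 2 by norm_num]
        exact Real.sqrt_sq (by norm_num)
      _ ≤ _ := by nlinarith
  · apply Real.sqrt_le_iff.2 ⟨by positivity, ?_⟩
    have e : (x ^ (3 / 2 : ℝ)) ^ 2 = x ^ 3 := by
      rw [← Real.rpow_natCast, ← Real.rpow_mul hx, ← Real.rpow_natCast]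
      norm_num
    have h1 : x ≤ 1 + x ^ 3 := by
      rcases le_total x 1 with h1 | h1
      · have : 0 ≤ x ^ 3 := by positivity
        linarith
      · have : x ≤ x ^ 3 := le_self_pow₀ h1 (by norm_num)
        linarith
    have h2 : x ^ 2 ≤ 1 + x ^ 3 := by
      rcases le_total x 1 with h1 | h1
      · have h3 : 0 ≤ x ^ 3 := by positivity
        have h4 : x ^ 2 ≤ 1 := pow_le_one₀ hx h1
        linarith
      · have : x ^ 2 ≤ x ^ 3 := pow_le_pow_right₀ h1 (by norm_num)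
        linarith
    have h3 : 0 ≤ x ^ 3 := by positivity
    nlinarith

theorem WPR_near (hWNR : WNR_stmt) (hWDL : WDL_stmt) (y₀ : ℕ) (hy₀ : 5 ≤ y₀) (C₁ : ℝ)
    (N K L L' T er es y : ℕ) (b ρ : ℝ) (W : WB C₁ N K L L' T er es y b ρ) (hes : 1 ≤ es)
    (n k : ℕ) (hp : (n, k) ∈ pairs N K y) (α β γ : ℤ) (hR : ResG n k 1 1 1 1 α β γ) (h : ℕ)
    (hh : h ∈ Ico 1 T) :
    √((nearPts L L' ((h * es : ℕ) * α / ((n : ℝ) ^ 3 * k)) ((h * es : ℕ) * β / ((n : ℝ) ^ 3 * k))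
      ((h * es : ℕ) * γ / ((n : ℝ) ^ 3 * k))).card : ℝ) ≤
    484 * (1 + ρ ^ (3 / 2 : ℝ) *
      (1 / lamb b (dl y₀ h (n * k)) (rt (dl y₀ h (n * k)) n k)) ^ (3 / 2 : ℝ)) := by
  unfold pairs at hp
  rw [mem_filter, mem_product, mem_Icc, mem_Icc] at hp
  obtain ⟨⟨⟨hn1, hnN⟩, hk1, hkK⟩, hNn, hKk, hco, -⟩ := hp
  simp only at hn1 hnN hk1 hkK hNn hKk hco
  rw [mem_Ico] at hh
  obtain ⟨hh1, hhT⟩ := hh
  obtain ⟨hD1, hD2, -⟩ := hWDL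
  obtain ⟨d1, d2, d3, d4, -⟩ := hD1 y₀ h (n * k) hh1
  set δ := dl y₀ h (n * k) with hδ
  have dk : Nat.Coprime δ k := Nat.Coprime.coprime_mul_left_right d3
  obtain ⟨r1, -, -⟩ := hD2 δ n k d1 dk
  have d5 : Nat.Coprime δ 5 := by
    rw [Nat.coprime_comm, Nat.Prime.coprime_iff_not_dvd Nat.prime_five]
    intro h5
    have := d4 5 Nat.prime_five h5
    omega
  have hb0 : 0 < b := by linarith [W.b1]
  have hn0 : (0 : ℝ) < n := by exact_mod_cast hn1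
  have hk0 : (0 : ℝ) < k := by exact_mod_cast hk1
  have hN0 : (0 : ℝ) < N := by exact_mod_cast W.N1
  have hK0 : (0 : ℝ) < K := by exact_mod_cast W.K1
  have hL0 : (0 : ℝ) < L := by exact_mod_cast W.L1
  have hL0' : (0 : ℝ) < L' := by exact_mod_cast W.L1'
  have hes0 : (0 : ℝ) < es := by exact_mod_cast hes
  have hnN' : (n : ℝ) ≤ N := by exact_mod_cast hnN
  have hkK' : (k : ℝ) ≤ K := by exact_mod_cast hkK
  have hNn' : (N : ℝ) ≤ 2 * n := by exact_mod_cast hNn.le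
  have hKk' : (K : ℝ) ≤ 2 * k := by exact_mod_cast hKk.le
  have hhT' : (h : ℝ) ≤ T := by exact_mod_cast hhT.le
  have hh0 : (0 : ℝ) ≤ h := by positivity
  -- the comparison of the main terms
  have cmp : ∀ X : ℝ, 0 ≤ X → 4 * ((h * es : ℕ) : ℝ) * X / (n : ℝ) ^ 3 ≤
      32 * ((T : ℝ) * es) * X / (N : ℝ) ^ 3 := by
    intro X hX
    rw [div_le_div_iff₀ (by positivity) (by positivity)]
    push_cast
    have e1 : (N : ℝ) ^ 3 ≤ 8 * (n : ℝ) ^ 3 := by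
      have := pow_le_pow_left₀ hN0.le hNn' 3
      calc (N : ℝ) ^ 3 ≤ (2 * n) ^ 3 := this
        _ = 8 * (n : ℝ) ^ 3 := by ring
    have e2 : (h : ℝ) * es ≤ T * es := mul_le_mul_of_nonneg_right hhT' hes0.le
    calc 4 * ((h : ℝ) * es) * X * (N : ℝ) ^ 3 ≤ 4 * ((T : ℝ) * es) * X * (8 * (n : ℝ) ^ 3) := by
          gcongr
      _ = 32 * ((T : ℝ) * es) * X * (n : ℝ) ^ 3 := by ring
  have c1 := cmp L' hL0'.le
  have c2 := cmp L hL0.le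
  have hT0 : (0 : ℝ) ≤ T := by positivity
  have g2 : 4 * ((h * es : ℕ) : ℝ) * L / (n : ℝ) ^ 3 + 2 * (n : ℝ) ^ 2 * k / L + (k : ℝ) ^ 3 / L' ≤
      32 * ((T : ℝ) * es) * L / (N : ℝ) ^ 3 + 2 * (N : ℝ) ^ 2 * K / L + (K : ℝ) ^ 3 / L' := by
    have a2 : 2 * (n : ℝ) ^ 2 * k / L ≤ 2 * (N : ℝ) ^ 2 * K / L := by gcongr
    have a3 : (k : ℝ) ^ 3 / L' ≤ (K : ℝ) ^ 3 / L' := by gcongr
    linarith
  have hx := hWNR n k L L' (h * es) δ (rt δ n k) α β γ b ρ hn1 hk1 W.L1 W.L1'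
    (Nat.mul_pos hh1 hes) hco hR W.b1 W.ρ0 d1 (d2.trans (dvd_mul_right _ _))
    (Nat.Coprime.mul_right d5 d3) r1
    (by
      refine le_trans ?_ W.s1
      have a3 : (k : ℝ) ^ 3 / L ≤ (K : ℝ) ^ 3 / L := by gcongr
      linarith)
    (le_trans g2 W.s2)
    (by
      refine le_trans ?_ W.s3
      have a1 : 2 * (n : ℝ) / k ≤ 4 * (N : ℝ) / K := by
        rw [div_le_div_iff₀ hk0 hK0]
        calc 2 * (n : ℝ) * K ≤ 2 * N * (2 * k) := by gcongr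
          _ = 4 * (N : ℝ) * k := by ring
      have a2 : 5 * (n : ℝ) ^ 3 / L ≤ 5 * (N : ℝ) ^ 3 / L := by gcongr
      have a3 := mul_le_mul a1 g2 (by positivity) (by positivity)
      linarith)
    (le_trans (by gcongr) W.s4)
  have hlam := WPR_lam b hb0 δ (rt δ n k)
  have hρ := W.ρ0
  have key := WPR_sq _ (ρ / lamb b δ (rt δ n k)) (by positivity) (by
    rcases hx with hx | hx
    · left; exact hx
    · right
      rw [← mul_div_assoc]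
      exact hx)
  refine key.trans_eq ?_
  rw [div_eq_mul_one_div, Real.mul_rpow hρ (by positivity)]

open Classical in
/-- one pair, all classes -/
theorem WPR_pair (hWPC : WPC_stmt) (hWNR : WNR_stmt) (hWDL : WDL_stmt) (y₀ : ℕ) (hy₀ : 5 ≤ y₀) :
    ∃ CP : ℝ, 1 ≤ CP ∧ ∀ (C₁ : ℝ) (N K L L' T er es y : ℕ) (b ρ z₀ V : ℝ),
    WB C₁ N K L L' T er es y b ρ → 1 ≤ er → 1 ≤ es →
    Nat.Coprime er es → 0 < V → 32 * T * V ≤ (N : ℝ) ^ 3 * K * es * (er : ℝ) ^ 2 / 8 →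
    ∀ n k : ℕ, (n, k) ∈ pairs N K y → ∀ x : Cls, ∀ F : Finset Tpl,
    (∀ t ∈ F, IsT t ∧ t.1 = (n, k) ∧ Nat.Coprime (t.1.1 * t.1.2) er ∧ InC er es x t ∧
      |(t.2.1 : ℝ)| + er * es ≤ er * es * (L : ℝ) ∧ |(t.2.2.1 : ℝ)| + er * es ≤ er * es * (L' : ℝ) ∧
      z₀ < t.2.2.2 ∧ (t.2.2.2 : ℝ) ≤ z₀ + V) →
    (F.card : ℝ) ≤ CP / T * (L * L' + √(L * L' : ℝ) * (484 * ∑ h ∈ Ico 1 T, (1 + ρ ^ (3 / 2 : ℝ) *
      (1 / lamb b (dl y₀ h (n * k)) (rt (dl y₀ h (n * k)) n k)) ^ (3 / 2 : ℝ)))) := by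
  obtain ⟨CP, hCP, H⟩ := hWPC
  refine ⟨CP, hCP, ?_⟩
  intro C₁ N K L L' T er es y b ρ z₀ V W her hes hee hV hTV n k hp x F hF
  have hb0 : 0 < b := by linarith [W.b1]
  have hρ := W.ρ0
  have hT1 : (1 : ℝ) ≤ T := by exact_mod_cast W.T1
  have hlam : ∀ d r, 0 ≤ lamb b d r := WPR_lam b hb0
  have hrn : ∀ h, 0 ≤ (1 / lamb b (dl y₀ h (n * k)) (rt (dl y₀ h (n * k)) n k)) ^ (3 / 2 : ℝ) := by
    intro h
    exact Real.rpow_nonneg (div_nonneg zero_le_one (hlam _ _)) _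
  have hρn : 0 ≤ ρ ^ (3 / 2 : ℝ) := Real.rpow_nonneg hρ _
  rcases F.eq_empty_or_nonempty with hE | ⟨t, ht⟩
  · rw [hE, card_empty, Nat.cast_zero]
    have : 0 ≤ ∑ h ∈ Ico 1 T, (1 + ρ ^ (3 / 2 : ℝ) *
      (1 / lamb b (dl y₀ h (n * k)) (rt (dl y₀ h (n * k)) n k)) ^ (3 / 2 : ℝ)) := by
      apply sum_nonneg
      intro h _
      have := mul_nonneg hρn (hrn h)
      linarith
    positivity
  obtain ⟨-, ht1, hcop, -⟩ := hF t ht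
  rw [ht1] at hcop
  simp only at hcop
  have hp' := hp
  unfold pairs at hp'
  rw [mem_filter, mem_product, mem_Icc, mem_Icc] at hp'
  obtain ⟨⟨⟨hn1, hnN⟩, hk1, hkK⟩, hNn, hKk, hco, -⟩ := hp'
  simp only at hn1 hnN hk1 hkK hNn hKk hco
  have hn0 : (0 : ℝ) < n := by exact_mod_cast hn1
  have hk0 : (0 : ℝ) < k := by exact_mod_cast hk1
  have hN0 : (0 : ℝ) < N := by exact_mod_cast W.N1
  have hK0 : (0 : ℝ) < K := by exact_mod_cast W.K1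
  have hNn' : (N : ℝ) ≤ 2 * n := by exact_mod_cast hNn.le
  have hKk' : (K : ℝ) ≤ 2 * k := by exact_mod_cast hKk.le
  obtain ⟨α, β, γ, hR, H2⟩ := H n k er es hn1 hk1 her hes hco hee hcop
  have h3 := H2 x L L' T z₀ V F W.L1 W.L1' W.T1 hV (by
    have e0 : (N : ℝ) ^ 3 ≤ (2 * n) ^ 3 := pow_le_pow_left₀ hN0.le hNn' 3
    have e1 : (N : ℝ) ^ 3 * K * es * (er : ℝ) ^ 2 ≤ (2 * n) ^ 3 * (2 * k) * es * (er : ℝ) ^ 2 := by
      gcongr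
    have e2 : (2 * (n : ℝ)) ^ 3 * (2 * k) * es * (er : ℝ) ^ 2 =
      16 * ((n : ℝ) ^ 3 * k * es * (er : ℝ) ^ 2) := by ring
    have e3 : 0 ≤ (n : ℝ) ^ 3 * k * es * (er : ℝ) ^ 2 := by positivity
    have e4 : 4 * (T : ℝ) * V * 8 = 32 * T * V := by ring
    linarith) (by
    intro t ht
    obtain ⟨a1, a2, -, a4, a5, a6, a7, a8⟩ := hF t ht
    exact ⟨a1, a2, a4, a5, a6, a7, a8⟩)
  refine h3.trans ?_
  have h4 : ∑ h ∈ Ico 1 T,
      √((nearPts L L' ((h * es : ℕ) * α / ((n : ℝ) ^ 3 * k)) ((h * es : ℕ) * β / ((n : ℝ) ^ 3 * k))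
        ((h * es : ℕ) * γ / ((n : ℝ) ^ 3 * k))).card : ℝ) ≤
      484 * ∑ h ∈ Ico 1 T, (1 + ρ ^ (3 / 2 : ℝ) *
      (1 / lamb b (dl y₀ h (n * k)) (rt (dl y₀ h (n * k)) n k)) ^ (3 / 2 : ℝ)) := by
    rw [mul_sum]
    exact sum_le_sum (fun h hh => WPR_near hWNR hWDL y₀ hy₀ C₁ N K L L' T er es y b ρ W hes n k hp
      α β γ hR h hh)
  gcongr

open Classical in
/-- all pairs, all classes -/
theorem WPR_count (N K y : ℕ) (s : ℝ) (g : ℕ × ℕ → ℝ) (S : ℕ × ℕ → Finset Cls)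
    (hS : ∀ p, ((S p).card : ℝ) ≤ s) (F : Finset Tpl) (er es : ℕ)
    (hF : ∀ t ∈ F, t.1 ∈ pairs N K y ∧ ∃ x ∈ S t.1, InC er es x t)
    (hg0 : ∀ p ∈ pairs N K y, 0 ≤ g p)
    (hg : ∀ p ∈ pairs N K y, ∀ x ∈ S p,
      (((F.filter (fun t => t.1 = p)).filter (fun t => InC er es x t)).card : ℝ) ≤ g p) :
    (F.card : ℝ) ≤ s * ∑ p ∈ pairs N K y, g p := by
  have h1 : F ⊆ (pairs N K y).biUnion (fun p => (S p).biUnion (fun x =>
      (F.filter (fun t => t.1 = p)).filter (fun t => InC er es x t))) := by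
    intro t ht
    obtain ⟨h1, x, hx, h2⟩ := hF t ht
    rw [mem_biUnion]
    refine ⟨t.1, h1, ?_⟩
    rw [mem_biUnion]
    refine ⟨x, hx, ?_⟩
    rw [mem_filter, mem_filter]
    exact ⟨⟨ht, rfl⟩, h2⟩
  have h2 : (F.card : ℝ) ≤ ∑ p ∈ pairs N K y, ∑ x ∈ S p,
      (((F.filter (fun t => t.1 = p)).filter (fun t => InC er es x t)).card : ℝ) := by
    have a1 := card_le_card h1
    have a2 := card_biUnion_le (s := pairs N K y) (t := fun p => (S p).biUnion (fun x =>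
      (F.filter (fun t => t.1 = p)).filter (fun t => InC er es x t)))
    have a3 : ∑ p ∈ pairs N K y, ((S p).biUnion (fun x =>
      (F.filter (fun t => t.1 = p)).filter (fun t => InC er es x t))).card ≤
      ∑ p ∈ pairs N K y, ∑ x ∈ S p,
      ((F.filter (fun t => t.1 = p)).filter (fun t => InC er es x t)).card :=
      sum_le_sum (fun p _ => card_biUnion_le)
    exact_mod_cast (a1.trans a2).trans a3
  refine h2.trans ?_
  rw [mul_sum]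
  apply sum_le_sum
  intro p hp
  calc ∑ x ∈ S p, (((F.filter (fun t => t.1 = p)).filter (fun t => InC er es x t)).card : ℝ)
      ≤ ∑ _x ∈ S p, g p := sum_le_sum (fun x hx => hg p hp x hx)
    _ = ((S p).card : ℝ) * g p := by rw [sum_const, nsmul_eq_mul]
    _ ≤ s * g p := mul_le_mul_of_nonneg_right (hS p) (hg0 p hp)

theorem WPR (hWPC : WPC_stmt) (hWNR : WNR_stmt) (hWSM : WSM_stmt) (hWDL : WDL_stmt) : WPR_stmt := by
  classical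
  rintro ⟨y₀, B, C₀, τ, hy₀, hC₀, hτ, hτ1, hLFS⟩
  obtain ⟨CS, hCS, HS⟩ := hWSM y₀ B C₀ τ hy₀ hC₀ hτ hτ1 hLFS
  obtain ⟨CP, hCP, HP⟩ := WPR_pair hWPC hWNR hWDL y₀ hy₀
  refine ⟨B, τ, hτ, ?_⟩
  intro C₁ hC₁
  have hA1 : 1 ≤ 2420 * C₁ ^ 2 * CP := by
    have : 1 ≤ C₁ ^ 2 := one_le_pow₀ hC₁
    nlinarith [mul_le_mul this hCP zero_le_one (by positivity)]
  have hA2 : 1 ≤ 2 * CS := by linarith
  refine ⟨2420 * C₁ ^ 2 * CP * (2 * CS), one_le_mul_of_one_le_of_one_le hA1 hA2, ?_⟩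
  intro N K L L' T er es y b ρ z₀ V s W hbB her hes hee hy hyes hV hTV S hS F hF
  have hb0 : 0 < b := by linarith [W.b1]
  have hρ := W.ρ0
  have hT1 : (1 : ℝ) ≤ T := by exact_mod_cast W.T1
  have hT0 : (0 : ℝ) < T := by linarith
  have hN0 : (0 : ℝ) < N := by exact_mod_cast W.N1
  have hK0 : (0 : ℝ) < K := by exact_mod_cast W.K1
  have hy1 : 1 ≤ y := Nat.pos_of_ne_zero hy.ne_zero
  have hy0 : (0 : ℝ) < y := by exact_mod_cast hy1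
  have hes1 : (1 : ℝ) ≤ es := by exact_mod_cast hes
  have hes0 : (0 : ℝ) < es := by linarith
  have hlam : ∀ d r, 0 ≤ lamb b d r := WPR_lam b hb0
  have hs0 : 0 ≤ s := le_trans (Nat.cast_nonneg _) (hS (1, 1))
  set ω := y.primeFactors.card with hω
  have hρn : 0 ≤ ρ ^ (3 / 2 : ℝ) := Real.rpow_nonneg hρ _
  set LT : ℕ × ℕ → ℕ → ℝ := fun p h =>
    (1 / lamb b (dl y₀ h (p.1 * p.2)) (rt (dl y₀ h (p.1 * p.2)) p.1 p.2)) ^ (3 / 2 : ℝ) with hLT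
  have hLT0 : ∀ p h, 0 ≤ LT p h := by
    intro p h
    exact Real.rpow_nonneg (div_nonneg zero_le_one (hlam _ _)) _
  -- the count
  have c1 := WPR_count N K y s (fun p => CP / T * (L * L' + √(L * L' : ℝ) *
    (484 * ∑ h ∈ Ico 1 T, (1 + ρ ^ (3 / 2 : ℝ) * LT p h)))) S hS F er es
    (fun t ht => ⟨(hF t ht).2.1, (hF t ht).2.2.2.1⟩)
    (by
      intro p _
      have : 0 ≤ ∑ h ∈ Ico 1 T, (1 + ρ ^ (3 / 2 : ℝ) * LT p h) :=
        sum_nonneg (fun h _ => by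
          have := mul_nonneg hρn (hLT0 p h)
          linarith)
      positivity)
    (by
      intro p hp x hx
      refine HP C₁ N K L L' T er es y b ρ z₀ V W her hes hee hV hTV p.1 p.2 hp x _ ?_
      intro t ht
      rw [mem_filter, mem_filter] at ht
      obtain ⟨⟨ht1, ht2⟩, ht3⟩ := ht
      obtain ⟨a1, a2, a3, a4, a5, a6, a7, a8⟩ := hF t ht1
      exact ⟨a1, ht2, a3, ht3, a5, a6, a7, a8⟩)
  refine c1.trans ?_
  -- the sum over the pairs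
  have hW := pairs_card N K y hy
  have hSM := HS b N K y T W.b1 W.N1 W.K1 W.T1 hy
  have hbT : b ^ B * (T : ℝ) ^ (-τ) ≤ 1 := by
    rw [Real.rpow_neg hT0.le, ← div_eq_mul_inv, div_le_one (Real.rpow_pos_of_pos hT0 _)]
    exact hbB
  have hNKy : 0 < (N : ℝ) * K / y := by positivity
  have hTy : (T : ℝ) ≤ C₁ * (N * K / y) := by
    rw [← mul_div_assoc, le_div_iff₀ hy0]
    exact W.T2
  have hSM2 : ∑ p ∈ pairs N K y, ∑ h ∈ Ico 1 T, LT p h ≤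
      CS ^ (ω + 1) * ((T : ℝ) ^ (5 / 4 : ℝ) + N * K * (T : ℝ) ^ (1 / 4 : ℝ) / y) * 2 := by
    refine hSM.trans ?_
    apply mul_le_mul_of_nonneg_left _ (by positivity)
    linarith
  have hρ2 : ρ ^ (3 / 2 : ℝ) ≤ C₁ * (es : ℝ) ^ (3 / 4 : ℝ) * (T : ℝ) ^ (3 / 4 : ℝ) := by
    have e1 : ρ ^ (3 / 2 : ℝ) = (ρ ^ 2) ^ (3 / 4 : ℝ) := by
      rw [← Real.rpow_natCast, ← Real.rpow_mul hρ]
      norm_num
    rw [e1]
    calc (ρ ^ 2) ^ (3 / 4 : ℝ) ≤ (C₁ * es * T) ^ (3 / 4 : ℝ) :=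
          Real.rpow_le_rpow (by positivity) W.ρ2 (by norm_num)
      _ = C₁ ^ (3 / 4 : ℝ) * (es : ℝ) ^ (3 / 4 : ℝ) * (T : ℝ) ^ (3 / 4 : ℝ) := by
          rw [Real.mul_rpow (by positivity) hT0.le, Real.mul_rpow (by linarith) hes0.le]
      _ ≤ C₁ * (es : ℝ) ^ (3 / 4 : ℝ) * (T : ℝ) ^ (3 / 4 : ℝ) := by
          have : C₁ ^ (3 / 4 : ℝ) ≤ C₁ := by
            calc C₁ ^ (3 / 4 : ℝ) ≤ C₁ ^ (1 : ℝ) :=
                  Real.rpow_le_rpow_of_exponent_le hC₁ (by norm_num)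
              _ = C₁ := Real.rpow_one _
          gcongr
  -- the product
  have hprod : ρ ^ (3 / 2 : ℝ) * ∑ p ∈ pairs N K y, ∑ h ∈ Ico 1 T, LT p h ≤
      4 * C₁ ^ 2 * CS ^ (ω + 1) * (es : ℝ) ^ (3 / 4 : ℝ) * (T * (N * K / y)) := by
    have hsum0 : 0 ≤ ∑ p ∈ pairs N K y, ∑ h ∈ Ico 1 T, LT p h :=
      sum_nonneg (fun p _ => sum_nonneg (fun h _ => hLT0 p h))
    calc ρ ^ (3 / 2 : ℝ) * ∑ p ∈ pairs N K y, ∑ h ∈ Ico 1 T, LT p h ≤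
        (C₁ * (es : ℝ) ^ (3 / 4 : ℝ) * (T : ℝ) ^ (3 / 4 : ℝ)) *
        (CS ^ (ω + 1) * ((T : ℝ) ^ (5 / 4 : ℝ) + N * K * (T : ℝ) ^ (1 / 4 : ℝ) / y) * 2) :=
          mul_le_mul hρ2 hSM2 hsum0 (by positivity)
      _ = 2 * C₁ * CS ^ (ω + 1) * (es : ℝ) ^ (3 / 4 : ℝ) *
        ((T : ℝ) ^ (3 / 4 : ℝ) * (T : ℝ) ^ (5 / 4 : ℝ) +
          N * K / y * ((T : ℝ) ^ (3 / 4 : ℝ) * (T : ℝ) ^ (1 / 4 : ℝ))) := by ring
      _ = 2 * C₁ * CS ^ (ω + 1) * (es : ℝ) ^ (3 / 4 : ℝ) *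
        ((T : ℝ) * T + N * K / y * T) := by
          rw [← Real.rpow_add hT0, ← Real.rpow_add hT0]
          norm_num
          left
          ring
      _ ≤ 2 * C₁ * CS ^ (ω + 1) * (es : ℝ) ^ (3 / 4 : ℝ) *
        ((C₁ * (N * K / y)) * T + C₁ * (N * K / y) * T) := by
          have : (N : ℝ) * K / y ≤ C₁ * (N * K / y) := le_mul_of_one_le_left hNKy.le hC₁
          gcongr
      _ = 4 * C₁ ^ 2 * CS ^ (ω + 1) * (es : ℝ) ^ (3 / 4 : ℝ) * (T * (N * K / y)) := by ring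
  have hes34 : 1 ≤ (es : ℝ) ^ (3 / 4 : ℝ) := Real.one_le_rpow hes1 (by norm_num)
  set E := (es : ℝ) ^ (3 / 4 : ℝ) with hE
  set P := (N : ℝ) * K / y with hP
  set Q := √(L * L' : ℝ) with hQ
  have hQ0 : 0 ≤ Q := Real.sqrt_nonneg _
  have hLL : 0 ≤ (L : ℝ) * L' := by positivity
  set W2 : ℝ := ((pairs N K y).card : ℝ) with hW2
  have hTsum : ∑ p ∈ pairs N K y, ∑ h ∈ Ico 1 T, (1 + ρ ^ (3 / 2 : ℝ) * LT p h) ≤
      W2 * T + 4 * C₁ ^ 2 * CS ^ (ω + 1) * E * (T * P) := by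
    have e1 : ∑ p ∈ pairs N K y, ∑ h ∈ Ico 1 T, (1 + ρ ^ (3 / 2 : ℝ) * LT p h) =
        W2 * ((T - 1 : ℕ) : ℝ) + ρ ^ (3 / 2 : ℝ) * ∑ p ∈ pairs N K y, ∑ h ∈ Ico 1 T, LT p h := by
      have e0 : ∀ p : ℕ × ℕ, ∑ h ∈ Ico 1 T, (1 + ρ ^ (3 / 2 : ℝ) * LT p h) =
          ((T - 1 : ℕ) : ℝ) + ρ ^ (3 / 2 : ℝ) * ∑ h ∈ Ico 1 T, LT p h := by
        intro p
        rw [sum_add_distrib, sum_const, Nat.card_Ico, nsmul_eq_mul, mul_one, mul_sum]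
      rw [sum_congr rfl (fun p _ => e0 p), sum_add_distrib, sum_const, nsmul_eq_mul, ← mul_sum]
    rw [e1]
    have e2 : ((T - 1 : ℕ) : ℝ) ≤ T := by exact_mod_cast Nat.sub_le T 1
    have e3 : W2 * ((T - 1 : ℕ) : ℝ) ≤ W2 * T := mul_le_mul_of_nonneg_left e2 (Nat.cast_nonneg _)
    linarith
  have hfin : ∑ p ∈ pairs N K y, (CP / T * (L * L' + Q *
      (484 * ∑ h ∈ Ico 1 T, (1 + ρ ^ (3 / 2 : ℝ) * LT p h)))) =
      CP / T * (W2 * (L * L') + 484 * Q *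
        ∑ p ∈ pairs N K y, ∑ h ∈ Ico 1 T, (1 + ρ ^ (3 / 2 : ℝ) * LT p h)) := by
    rw [← mul_sum, sum_add_distrib, sum_const, nsmul_eq_mul, ← mul_sum, ← mul_sum]
    ring
  rw [hfin]
  have hP0 : 0 ≤ P := hNKy.le
  have h2ω : (2 : ℝ) ^ ω ≤ (2 * CS) ^ (ω + 1) := by
    calc (2 : ℝ) ^ ω ≤ (2 * CS) ^ ω := pow_le_pow_left₀ (by norm_num) (by linarith) _
      _ ≤ (2 * CS) ^ (ω + 1) := pow_le_pow_right₀ hA2 (by omega)
  have hCω : CS ^ (ω + 1) ≤ (2 * CS) ^ (ω + 1) := pow_le_pow_left₀ (by linarith) (by linarith) _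
  have hC12 : 1 ≤ C₁ ^ 2 := one_le_pow₀ hC₁
  set Z := (2 * CS) ^ (ω + 1) with hZ
  have hZ0 : 0 ≤ Z := by positivity
  have hCP0 : 0 ≤ CP := by linarith
  have hW3 : W2 ≤ Z * P := hW.trans (mul_le_mul_of_nonneg_right h2ω hP0)
  have hE0 : 0 ≤ E := by linarith
  have s1 : W2 * T + 4 * C₁ ^ 2 * CS ^ (ω + 1) * E * (T * P) ≤ 5 * C₁ ^ 2 * Z * E * (T * P) := by
    have t1 : W2 * T ≤ C₁ ^ 2 * Z * E * (T * P) := by
      calc W2 * T ≤ (Z * P) * T := mul_le_mul_of_nonneg_right hW3 hT0.le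
        _ = 1 * Z * 1 * (T * P) := by ring
        _ ≤ C₁ ^ 2 * Z * E * (T * P) := by gcongr
    have t2 : 4 * C₁ ^ 2 * CS ^ (ω + 1) * E * (T * P) ≤ 4 * C₁ ^ 2 * Z * E * (T * P) := by gcongr
    linarith
  calc s * (CP / T * (W2 * (L * L') + 484 * Q *
        ∑ p ∈ pairs N K y, ∑ h ∈ Ico 1 T, (1 + ρ ^ (3 / 2 : ℝ) * LT p h)))
      ≤ s * (CP / T * ((Z * P) * (L * L') + 484 * Q * (5 * C₁ ^ 2 * Z * E * (T * P)))) := by
        have := hTsum.trans s1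
        gcongr
    _ = CP * Z * s * P * (1 * (L * L' / T) + 2420 * C₁ ^ 2 * (Q * E)) := by
        field_simp
        ring
    _ ≤ CP * Z * s * P * (2420 * C₁ ^ 2 * (L * L' / T) + 2420 * C₁ ^ 2 * (Q * E)) := by
        have : 1 ≤ 2420 * C₁ ^ 2 := by linarith
        gcongr
    _ = (2420 * C₁ ^ 2 * CP) ^ 1 * Z * s * P * (L * L' / T + Q * E) := by ring
    _ ≤ (2420 * C₁ ^ 2 * CP) ^ (ω + 1) * Z * s * P * (L * L' / T + Q * E) := by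
        have : (2420 * C₁ ^ 2 * CP) ^ 1 ≤ (2420 * C₁ ^ 2 * CP) ^ (ω + 1) :=
          pow_le_pow_right₀ hA1 (by omega)
        gcongr
    _ = (2420 * C₁ ^ 2 * CP * (2 * CS)) ^ (ω + 1) * s * P * (L * L' / T + Q * E) := by
        rw [hZ, mul_pow (2420 * C₁ ^ 2 * CP) (2 * CS)]

end Pool.Agent.T6
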